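import Pool.Agent.W900.PM.Fin

/-!
# How many strings of a random oracle have to be changed to make `NP` small?

Relative to almost every oracle, `NP` does not have p-measure zero (Kautz and Miltersen). The number
of changes is measured by a function `g`: the oracle `A` is obtained from `O` by changing, for all
large `n`, at most `g n` of the strings of length at most `n`.

* If `g` tends to infinity, however slowly, then every oracle `O` can be changed, by at most `g`
  changes, such that even `PSPACE` has p-measure zero. (In a block of `2 ^ (2 n + 1)` strings the
  sum of the indices of the ones can be given any value by changing one string; so one change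
  predicts `2 n` bits of a language, and the bet on these bits wins more than is lost by the
  ignorance of the places of the changes.)
* If `g` does not tend to infinity, then for almost every oracle `O` the changes have no effect:
  `NP` does not have p-measure zero, and more precisely, for all `k` and `j`, the level `Σ_k` has
  p-measure zero relative to `A` and some set in `Σ_j` if and only if `k ≤ j`.
* For almost every oracle `O` and every `g` that tends to infinity the changes of the first part
  can be chosen such that the polynomial hierarchy is infinite and there are one-way functions of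
  which polynomial time algorithms invert at most `2 ^ (n ^ δ)` values, for every `δ > 0`.
-/

set_option autoImplicit false

namespace Pool.Agent.Results.MP_158ebf_lc.ChangedStrings

open Filter MeasureTheory Pool.Agent.H620R2.Gauge
open Pool.Agent.W911.KM (NullP join)
open Pool.Agent.W911.AL (IsSigma)
open Pool.Agent.W900.CH (Close)
open Pool.Agent.W900.OC (Hard)
open Pool.Agent.H591R3.PHG (IsSig IsSigPoly)
open Pool.Agent.H628R3.RO (randomOracle)

theorem result :
    (∀ g : ℕ → ℝ, Tendsto g atTop atTop → ∀ O : Oracle, ∃ A : Oracle, Close g O A ∧
      NullP A {L | IsPSPACE A L}) ∧
    ∀ᵐ O ∂randomOracle,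
      (∀ g : ℕ → ℝ, ¬ Tendsto g atTop atTop → ∀ A : Oracle, Close g O A → ∀ k j : ℕ,
        (∃ B : Set (List Bool), IsSigma A (fun _ => j) B ∧
          NullP (join A B) {L | IsSigma A (fun _ => k) L}) ↔ k ≤ j) ∧
      ∀ g : ℕ → ℝ, Tendsto g atTop atTop → ∃ A : Oracle, Close g O A ∧
        NullP A {L | IsPSPACE A L} ∧ (∀ k, ∃ L, IsSig A (k + 1) L ∧ ¬ IsSigPoly A k L) ∧
        ∃ f, Hard A f :=
  ⟨fun _ hg O => Pool.Agent.W900.PM.exists_close_null hg O, Pool.Agent.W900.PM.ae_main⟩

end Pool.Agent.Results.MP_158ebf_lc.ChangedStrings
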