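import Pool.Agent.W911.KM.Upper

/-!
# The exact measure-theoretic strength of the levels of the polynomial hierarchy

`IsSigma A (fun _ => k) B`: the language `B` is in the level `Σ_k` of the polynomial hierarchy
relative to the oracle `A`, i.e. it is decided in polynomial time relative to `A` with `k`
alternating quantifiers, the first one existential (`k = 0` is `P`, `k = 1` is `NP`).

`NullP O X`: the class `X` of languages has `p`-measure zero relative to the oracle `O`, i.e. it
has a null cover which is computable (through dyadic approximations) in polynomial time relative
to `O`.

Relative to almost every oracle `A`, for all `k` and `j`: the level `Σ_k` has `p`-measure zero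
relative to the join of `A` and some set in `Σ_j` if and only if `k ≤ j`. The case `k = 1`,
`j = 0` says that `NP` does not have `p`-measure zero.
-/

set_option autoImplicit false

namespace Pool.Agent.Results.MP_158ebf_lc.ExactLevels

open MeasureTheory Pool.Agent.W911.AL Pool.Agent.W911.KM
open Pool.Agent.H620R2.Gauge (Oracle)

theorem result : ∀ᵐ A ∂fair, ∀ k j : ℕ,
    (∃ B : Set (List Bool), IsSigma A (fun _ => j) B ∧
      NullP (join A B) {L | IsSigma A (fun _ => k) L}) ↔ k ≤ j :=
  exact_ae

end Pool.Agent.Results.MP_158ebf_lc.ExactLevels
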